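import Pool.Agent.H20.KH.Stmts
import Pool.Agent.H18.KG.CHI

/-!
# Project KH, module CH2: the chain of blocks, by induction on the number of blocks
-/

set_option autoImplicit false
set_option linter.unusedSectionVars false
set_option linter.unusedVariables false

open MeasureTheory Set Filter Topology
open scoped ContDiff

namespace Pool.Agent.H20.KH

open Pool.Agent.H84 Pool.Agent.H84.Sym Pool.Agent.H84.Sym.P2x Pool.Agent.H19.KL
open Pool.Agent.H73.KG

section

variable {E : Type} [NormedAddCommGroup E] [InnerProductSpace ℝ E]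
    [FiniteDimensional ℝ E] [MeasurableSpace E] [BorelSpace E]

theorem CH2_cv_add {V : E → ℝ} {t : ℝ} (hV : PP V t) {f g h : E → ℝ} (hf : GC f) (hg : GC g)
    (hh : GC h) : cv V f (fun x => g x + h x) = cv V f g + cv V f h := by
  obtain ⟨⟨C, hP⟩, hpr⟩ := hV
  unfold Pool.Agent.H73.KG.cv
  have e1 : ∫ x, f x * (g x + h x) ∂(mu V) = (∫ x, f x * g x ∂(mu V)) +
      ∫ x, f x * h x ∂(mu V) := by
    rw [← integral_add ((hf.mul hg).integrable hP) ((hf.mul hh).integrable hP)]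
    refine integral_congr_ae (Eventually.of_forall fun x => ?_)
    ring
  have e2 : ∫ x, (g x + h x) ∂(mu V) = (∫ x, g x ∂(mu V)) + ∫ x, h x ∂(mu V) :=
    integral_add (hg.integrable hP) (hh.integrable hP)
  rw [e1, e2]
  ring

theorem CH2_li (e : E) : GC (li e) := by
  have h : Continuous (li e) := by
    unfold li
    fun_prop
  refine ⟨h, ‖e‖, 1, fun x => ?_⟩
  unfold li
  have h1 := abs_real_inner_le_norm e x
  have h2 := Real.add_one_le_exp (1 * ‖x‖)
  have h3 : ‖x‖ ≤ Real.exp (1 * ‖x‖) := by linarith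
  exact h1.trans (mul_le_mul_of_nonneg_left h3 (norm_nonneg e))

theorem CH2_qc {ι : Type} [Fintype ι] (b : OrthonormalBasis ι ℝ E) (m : ι → ℝ) (V : E → ℝ) :
    GC (qc b m V) := by
  have h : GC (fun x => ∑ i, m i * (li (b i) x - mn V (b i)) ^ 2) := by
    apply GC.sum
    intro i
    exact (GC.const _).mul (((CH2_li (b i)).sub (GC.const _)).sq)
  exact h

end

theorem CH2_step (C0 : ℝ) (hC0 : 1 ≤ C0) (hK : KBD C0)
    (hBAS : ∀ (E : Type) [NormedAddCommGroup E] [InnerProductSpace ℝ E]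
      [FiniteDimensional ℝ E] [MeasurableSpace E] [BorelSpace E], BASStmt E)
    (hMGL : ∀ (E : Type) [NormedAddCommGroup E] [InnerProductSpace ℝ E]
      [FiniteDimensional ℝ E] [MeasurableSpace E] [BorelSpace E], MGLStmt E)
    (hMGA : ∀ (E : Type) [NormedAddCommGroup E] [InnerProductSpace ℝ E]
      [FiniteDimensional ℝ E] [MeasurableSpace E] [BorelSpace E], MGAStmt E)
    (hOS0 : ∀ (E : Type) [NormedAddCommGroup E] [InnerProductSpace ℝ E]
      [FiniteDimensional ℝ E] [MeasurableSpace E] [BorelSpace E], OS0Stmt E)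
    (hOL2 : ∀ (E : Type) [NormedAddCommGroup E] [InnerProductSpace ℝ E]
      [FiniteDimensional ℝ E] [MeasurableSpace E] [BorelSpace E], OL2Stmt E)
    (hSP2 : ∀ (E : Type) [NormedAddCommGroup E] [InnerProductSpace ℝ E]
      [FiniteDimensional ℝ E] [MeasurableSpace E] [BorelSpace E], SP2Stmt E)
    (hQS2 : ∀ (E : Type) [NormedAddCommGroup E] [InnerProductSpace ℝ E]
      [FiniteDimensional ℝ E] [MeasurableSpace E] [BorelSpace E], QS2Stmt E)
    {E : Type} [NormedAddCommGroup E] [InnerProductSpace ℝ E]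
    [FiniteDimensional ℝ E] [MeasurableSpace E] [BorelSpace E] (U : E → ℝ) (t : ℝ)
    (hU : BP U t) (ht : t ≤ 1) (hc5 : CovLe U 5) (n : ℕ) (v : ℕ → E) (m : ℕ → ℝ) (β : ℝ)
    (hv : ∀ i < n, ∀ j < n, inner ℝ (v i) (v j) = (if i = j then (1:ℝ) else 0))
    (hm : ∀ i < n, |m i| ≤ β) (hβ : 0 ≤ β) (g W : E → ℝ) (hg : OSI U g W)
    (ψ : E → ℝ) (hψ : GC ψ) :
    ∃ g' W' : (CHI_sp n v)ᗮ → ℝ, OSI (mg (CHI_sp n v) U) g' W' ∧
        2 * cv U ψ g + 2 * (∑ i ∈ Finset.range n, m i * q2 U ψ (v i) (v i)) - cv U ψ ψ +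
          (∫ z, W' z ∂(mu (mg (CHI_sp n v) U))) ≤
        2 * cv (mg (CHI_sp n v) U) (cav (CHI_sp n v) U ψ) g' -
          cv (mg (CHI_sp n v) U) (cav (CHI_sp n v) U ψ) (cav (CHI_sp n v) U ψ) +
          (∫ x, W x ∂(mu U)) +
          C0 * β ^ 2 * (n + 4 * Module.finrank ℝ (CHI_sp n v)ᗮ / t ^ 7) +
          8 * (β * Real.sqrt (Module.finrank ℝ (CHI_sp n v)ᗮ) / t ^ 2 * Real.sqrt (cv U ψ ψ)) := by
  have hcc := CHI_basis hv
  set S := CHI_sp n v with hS
  obtain ⟨c, hc⟩ := hcc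
  have ht0 : 0 < t := by
    obtain ⟨⟨C, h⟩, _⟩ := hU.1
    exact h.pos
  obtain ⟨⟨CU, hPU⟩, hprU⟩ := hU.1
  set mm : Fin n → ℝ := fun i => m i with hmm
  have hmm' : ∀ i, |mm i| ≤ β := fun i => hm i i.2
  obtain ⟨hMG1, hMG2, hMG3, hMG4, hMG5, hMG6⟩ := hMGL E U t hU S
  obtain ⟨hA1, ⟨B, hB1, hB2, hB3⟩, hA3⟩ := hMGA E U t hU ht hc5 S (Fin n) c
  have hg1 := hg
  obtain ⟨hg2, hW1, ⟨BW, hW2⟩, hg3⟩ := hg1
  -- the functions
  set K2 : Sᗮ → ℝ := fun z => C0 * β ^ 2 *
    ((Fintype.card (Fin n) : ℝ) + (∑ i, ∑ j, (cm c (fb S U z) i j - B i j) ^ 2) / t ^ 4) with hK2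
  have hK2c : Continuous K2 := by
    refine continuous_const.mul (continuous_const.add (Continuous.div_const ?_ _))
    exact continuous_finsetSum _ fun i _ => continuous_finsetSum _ fun j _ =>
      ((hA1 i j).1.sub continuous_const).pow 2
  have hsq : ∀ (z : Sᗮ) (i j : Fin n), (cm c (fb S U z) i j - B i j) ^ 2 ≤ (1 / t + |B i j|) ^ 2 := by
    intro z i j
    apply sq_le_sq'
    · have h1 := (abs_le.1 ((hA1 i j).2 z)).1
      have h2 := le_abs_self (B i j)
      linarith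
    · have h1 := (abs_le.1 ((hA1 i j).2 z)).2
      have h2 := neg_abs_le (B i j)
      linarith
  have hK2n : ∀ z, 0 ≤ K2 z := fun z => by
    rw [hK2]
    have : 0 ≤ ∑ i, ∑ j, (cm c (fb S U z) i j - B i j) ^ 2 :=
      Finset.sum_nonneg fun i _ => Finset.sum_nonneg fun j _ => sq_nonneg _
    beta_reduce
    positivity
  have hK2b : ∀ z, |K2 z| ≤ C0 * β ^ 2 *
      ((Fintype.card (Fin n) : ℝ) + (∑ i, ∑ j, (1 / t + |B i j|) ^ 2) / t ^ 4) := by
    intro z
    rw [abs_of_nonneg (hK2n z)]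
    rw [hK2]
    beta_reduce
    apply mul_le_mul_of_nonneg_left _ (by positivity)
    apply add_le_add le_rfl
    apply div_le_div_of_nonneg_right _ (by positivity)
    exact Finset.sum_le_sum fun i _ => Finset.sum_le_sum fun j _ => hsq z i j
  have hHH : ∀ (z : Sᗮ) (φ : S → ℝ), Tst φ → HH c mm (fb S U z) φ ≤ K2 z := by
    intro z φ hφ
    exact hK S (fb S U z) t (hMG2 z) ht (Fin n) c B hB1 hB2 mm β hmm' φ hφ
  have hO := hOL2 E U t hU S (Fin n) c mm g W K2 hg hK2c ⟨_, hK2b⟩ hHH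
  set H : Sᗮ → ℝ := fun z => ∑ i, mm i * cv (fb S U z) (li (c i)) (li (c i)) with hH
  set g' : Sᗮ → ℝ := fun z => cav S U g z + ∑ i, mm i * cv (fb S U z) (li (c i)) (li (c i))
    with hg'
  set Q : Sᗮ → ℝ := fun z => cv (fb S U z) (fun x => g ((x : E) + (z : E)) + qc c mm (fb S U z) x)
        (fun x => g ((x : E) + (z : E)) + qc c mm (fb S U z) x) with hQ
  set W' : Sᗮ → ℝ := fun z => cav S U W z + K2 z -
      cv (fb S U z) (fun x => g ((x : E) + (z : E)) + qc c mm (fb S U z) x)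
        (fun x => g ((x : E) + (z : E)) + qc c mm (fb S U z) x) with hW'
  have hHg : GC H := by
    apply GC.sum
    intro i
    refine GC.mul (GC.const _) ?_
    refine ⟨(hA1 i i).1, Gr.of_bdd (A := 1 / t) fun z => (hA1 i i).2 z⟩
  have hgg : GC g' := (hOS0 Sᗮ (mg S U) t hMG1 g' W' hO 0).1
  have hcg : GC (cav S U g) := by
    have h := hgg.sub hHg
    have e : (fun z => g' z - H z) = cav S U g := by
      funext z
      rw [hg', hH]
      ring
    rwa [e] at h
  have hgGC : GC g := (hOS0 E U t hU g W hg 0).1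
  have hWG : GC W := ⟨hW1, Gr.of_bdd hW2⟩
  obtain ⟨hi1, hi2, hi3⟩ := hMG4 W hWG
  have hMG1' := hMG1.1
  obtain ⟨⟨C', hP⟩, hprob⟩ := hMG1'
  have hKG : GC K2 := ⟨hK2c, Gr.of_bdd hK2b⟩
  have hi4 : Integrable K2 (mu (mg S U)) := hKG.integrable hP
  -- integral of K2
  have hIK : ∫ z, K2 z ∂(mu (mg S U)) ≤ C0 * β ^ 2 *
      (n + 4 * Module.finrank ℝ Sᗮ / t ^ 7) := by
    have hQG : GC (fun z => ∑ i, ∑ j, (cm c (fb S U z) i j - B i j) ^ 2) := by
      apply GC.sum
      intro i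
      apply GC.sum
      intro j
      apply GC.sq
      refine GC.sub ⟨(hA1 i j).1, Gr.of_bdd (hA1 i j).2⟩ (GC.const _)
    have hi5 := hQG.integrable hP
    have e2 : ∫ z, K2 z ∂(mu (mg S U)) = C0 * β ^ 2 * ((n:ℝ) +
        (∫ z, (∑ i, ∑ j, (cm c (fb S U z) i j - B i j) ^ 2) ∂(mu (mg S U))) / t ^ 4) := by
      rw [hK2, integral_const_mul, integral_add (integrable_const _) (hi5.div_const _),
        integral_div]
      simp
    rw [e2]
    apply mul_le_mul_of_nonneg_left _ (by positivity)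
    apply add_le_add le_rfl
    calc (∫ z, (∑ i, ∑ j, (cm c (fb S U z) i j - B i j) ^ 2) ∂(mu (mg S U))) / t ^ 4
        ≤ (4 * Module.finrank ℝ Sᗮ / t ^ 3) / t ^ 4 :=
          div_le_div_of_nonneg_right hB3 (by positivity)
      _ = 4 * Module.finrank ℝ Sᗮ / t ^ 7 := by
        rw [div_div, ← pow_add]
  -- W' and Q
  obtain ⟨hO1, hO2, ⟨BW', hO3⟩, hO4⟩ := hO
  have hWG' : GC W' := ⟨hO2, Gr.of_bdd hO3⟩
  have hi6 : Integrable W' (mu (mg S U)) := hWG'.integrable hP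
  have eQ : Q = fun z => cav S U W z + K2 z - W' z := by
    funext z
    rw [hW', hQ]
    ring
  have hi7 : Integrable Q (mu (mg S U)) := by
    rw [eQ]
    exact (hi2.add hi4).sub hi6
  have eW' : ∫ z, W' z ∂(mu (mg S U)) = (∫ x, W x ∂(mu U)) + (∫ z, K2 z ∂(mu (mg S U))) -
      ∫ z, Q z ∂(mu (mg S U)) := by
    have h1 : ∫ z, Q z ∂(mu (mg S U)) = (∫ z, cav S U W z ∂(mu (mg S U))) +
        (∫ z, K2 z ∂(mu (mg S U))) - ∫ z, W' z ∂(mu (mg S U)) := by
      have i9 : Integrable (fun z => cav S U W z + K2 z) (mu (mg S U)) := hi2.add hi4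
      rw [eQ, integral_sub i9 hi6, integral_add hi2 hi4]
    rw [h1, hi1]
    ring
  -- the splittings
  obtain ⟨hs1, hs2, hs3⟩ := hSP2 E U t hU S ψ g hψ hgGC
  obtain ⟨-, hs5, hs6⟩ := hSP2 E U t hU S ψ ψ hψ hψ
  obtain ⟨hq1, hq2⟩ := hQS2 E U t hU ht S (Fin n) c mm β hmm' hβ ψ hψ
  have e1 : ∑ i ∈ Finset.range n, m i * q2 U ψ (v i) (v i) =
      ∑ i, mm i * q2 U ψ (c i) (c i) := by
    rw [Finset.sum_range]
    refine Finset.sum_congr rfl fun i _ => ?_
    rw [hc i]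
  have e3 : cv (mg S U) (cav S U ψ) g' = cv (mg S U) (cav S U ψ) (cav S U g) +
      cv (mg S U) (cav S U ψ) H := CH2_cv_add hMG1.1 hs1 hcg hHg
  -- the pointwise inequality on the fibres
  have hpt : ∀ z : Sᗮ, 2 * (cv (fb S U z) (fun x => ψ ((x : E) + (z : E)))
      (fun x => g ((x : E) + (z : E))) + cv (fb S U z) (fun x => ψ ((x : E) + (z : E)))
      (qc c mm (fb S U z))) ≤ cv (fb S U z) (fun x => ψ ((x : E) + (z : E)))
      (fun x => ψ ((x : E) + (z : E))) + Q z := by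
    intro z
    have g1 : GC (fun x : S => ψ ((x : E) + (z : E))) := P4bx.gc_sec S hψ (z : E)
    have g2 : GC (fun x : S => g ((x : E) + (z : E))) := P4bx.gc_sec S hgGC (z : E)
    have g3 : GC (qc c mm (fb S U z)) := CH2_qc c mm (fb S U z)
    rw [← CH2_cv_add (hMG2 z) g1 g2 g3]
    obtain ⟨k1, k2, -, -⟩ := (hBAS S).2.2.2.1 (fb S U z) t (hMG2 z)
      (fun x : S => ψ ((x : E) + (z : E)))
      (fun x : S => g ((x : E) + (z : E)) + qc c mm (fb S U z) x) g1 (g2.add g3)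
    obtain ⟨-, k3, -, -⟩ := (hBAS S).2.2.2.1 (fb S U z) t (hMG2 z)
      (fun x : S => g ((x : E) + (z : E)) + qc c mm (fb S U z) x)
      (fun x : S => g ((x : E) + (z : E)) + qc c mm (fb S U z) x) (g2.add g3) (g2.add g3)
    have k4 : Q z = cv (fb S U z) (fun x => g ((x : E) + (z : E)) + qc c mm (fb S U z) x)
        (fun x => g ((x : E) + (z : E)) + qc c mm (fb S U z) x) := rfl
    rw [k4]
    set A1 := cv (fb S U z) (fun x : S => ψ ((x : E) + (z : E)))
      (fun x : S => ψ ((x : E) + (z : E)))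
    set A2 := cv (fb S U z) (fun x : S => g ((x : E) + (z : E)) + qc c mm (fb S U z) x)
      (fun x : S => g ((x : E) + (z : E)) + qc c mm (fb S U z) x)
    set A3 := cv (fb S U z) (fun x : S => ψ ((x : E) + (z : E)))
      (fun x : S => g ((x : E) + (z : E)) + qc c mm (fb S U z) x)
    have k5 : (2 * A3) ^ 2 ≤ (A1 + A2) ^ 2 := by nlinarith [sq_nonneg (A1 - A2)]
    exact (abs_le_of_sq_le_sq' k5 (by linarith)).2
  have hint := integral_mono ((hs2.add hq1).const_mul 2) (hs5.add hi7) hpt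
  have ei1 : ∫ z, 2 * (cv (fb S U z) (fun x => ψ ((x : E) + (z : E)))
      (fun x => g ((x : E) + (z : E))) + cv (fb S U z) (fun x => ψ ((x : E) + (z : E)))
      (qc c mm (fb S U z))) ∂(mu (mg S U)) =
      2 * ((∫ z : Sᗮ, cv (fb S U z) (fun x => ψ ((x : E) + (z : E)))
      (fun x => g ((x : E) + (z : E))) ∂(mu (mg S U))) +
      ∫ z : Sᗮ, cv (fb S U z) (fun x => ψ ((x : E) + (z : E)))
      (qc c mm (fb S U z)) ∂(mu (mg S U))) := by
    rw [integral_const_mul, integral_add hs2 hq1]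
  have ei2 : ∫ z, (cv (fb S U z) (fun x => ψ ((x : E) + (z : E)))
      (fun x => ψ ((x : E) + (z : E))) + Q z) ∂(mu (mg S U)) =
      (∫ z : Sᗮ, cv (fb S U z) (fun x => ψ ((x : E) + (z : E)))
      (fun x => ψ ((x : E) + (z : E))) ∂(mu (mg S U))) + ∫ z, Q z ∂(mu (mg S U)) :=
    integral_add hs5 hi7
  have hint' : 2 * ((∫ z : Sᗮ, cv (fb S U z) (fun x => ψ ((x : E) + (z : E)))
      (fun x => g ((x : E) + (z : E))) ∂(mu (mg S U))) +
      ∫ z : Sᗮ, cv (fb S U z) (fun x => ψ ((x : E) + (z : E)))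
      (qc c mm (fb S U z)) ∂(mu (mg S U))) ≤
      (∫ z : Sᗮ, cv (fb S U z) (fun x => ψ ((x : E) + (z : E)))
      (fun x => ψ ((x : E) + (z : E))) ∂(mu (mg S U))) + ∫ z, Q z ∂(mu (mg S U)) := by
    rw [← ei1, ← ei2]
    exact hint
  have hq3 := (abs_le.1 hq2).2
  refine ⟨g', W', ⟨hO1, hO2, ⟨BW', hO3⟩, hO4⟩, ?_⟩
  rw [e1, e3, eW', hs3]
  have eB : 4 * β * Real.sqrt (Module.finrank ℝ Sᗮ) / t ^ 2 * Real.sqrt (cv U ψ ψ) =
      4 * (β * Real.sqrt (Module.finrank ℝ Sᗮ) / t ^ 2 * Real.sqrt (cv U ψ ψ)) := by ring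
  rw [eB] at hq3
  set X1 := β * Real.sqrt (Module.finrank ℝ Sᗮ) / t ^ 2 * Real.sqrt (cv U ψ ψ)
  rw [hs6]
  linarith

theorem CH2_zero {E : Type} [NormedAddCommGroup E] [InnerProductSpace ℝ E]
    [FiniteDimensional ℝ E] [MeasurableSpace E] [BorelSpace E] (hE : Module.finrank ℝ E = 0)
    (U : E → ℝ) (t : ℝ) (hU : PP U t) (f g : E → ℝ) : cv U f g = 0 := by
  have hs : Subsingleton E := Module.finrank_zero_iff.1 hE
  have := hU.2
  have h : ∀ F : E → ℝ, ∫ x, F x ∂(mu U) = F 0 := by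
    intro F
    have e : F = fun _ => F 0 := by
      funext x
      rw [Subsingleton.elim x 0]
    rw [e]
    simp
  unfold Pool.Agent.H73.KG.cv
  rw [h, h, h]
  ring

theorem ch2_thm (hKFB : KFBStmt)
    (hBAS : ∀ (E : Type) [NormedAddCommGroup E] [InnerProductSpace ℝ E]
      [FiniteDimensional ℝ E] [MeasurableSpace E] [BorelSpace E], BASStmt E)
    (hMGL : ∀ (E : Type) [NormedAddCommGroup E] [InnerProductSpace ℝ E]
      [FiniteDimensional ℝ E] [MeasurableSpace E] [BorelSpace E], MGLStmt E)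
    (hMGA : ∀ (E : Type) [NormedAddCommGroup E] [InnerProductSpace ℝ E]
      [FiniteDimensional ℝ E] [MeasurableSpace E] [BorelSpace E], MGAStmt E)
    (hOS0 : ∀ (E : Type) [NormedAddCommGroup E] [InnerProductSpace ℝ E]
      [FiniteDimensional ℝ E] [MeasurableSpace E] [BorelSpace E], OS0Stmt E)
    (hOL2 : ∀ (E : Type) [NormedAddCommGroup E] [InnerProductSpace ℝ E]
      [FiniteDimensional ℝ E] [MeasurableSpace E] [BorelSpace E], OL2Stmt E)
    (hSP2 : ∀ (E : Type) [NormedAddCommGroup E] [InnerProductSpace ℝ E]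
      [FiniteDimensional ℝ E] [MeasurableSpace E] [BorelSpace E], SP2Stmt E)
    (hQS2 : ∀ (E : Type) [NormedAddCommGroup E] [InnerProductSpace ℝ E]
      [FiniteDimensional ℝ E] [MeasurableSpace E] [BorelSpace E], QS2Stmt E)
    (hMQ2 : ∀ (E : Type) [NormedAddCommGroup E] [InnerProductSpace ℝ E]
      [FiniteDimensional ℝ E] [MeasurableSpace E] [BorelSpace E], MQ2Stmt E) : CH2Stmt := by
  obtain ⟨C0, hC0, hK⟩ := hKFB
  refine ⟨5 * C0 + 9, by linarith, ?_⟩
  intro r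
  induction r with
  | zero =>
    intro E _ _ _ _ _ U t hU ht hc5 d e m β Dd hB hfr g W hg ψ hψ
    have hE : Module.finrank ℝ E = 0 := by
      simpa using hfr
    have hW : 0 ≤ ∫ x, W x ∂(mu U) := by
      apply integral_nonneg
      intro x
      have h := hg.2.2.2 x 0
      simpa using h
    rw [CH2_zero hE U t hU.1, CH2_zero hE U t hU.1]
    simp only [Finset.range_zero, Finset.sum_empty, mul_zero, add_zero, sub_zero]
    exact hW
  | succ r ih =>
    intro E _ _ _ _ _ U t hU ht hc5 d e m β Dd hB hfr g W hg ψ hψ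
    have ht0 : 0 < t := by
      obtain ⟨⟨C, h⟩, _⟩ := hU.1
      exact h.pos
    have hr := Nat.lt_succ_self r
    have hv : ∀ i < d r, ∀ j < d r, inner ℝ (e r i) (e r j) = (if i = j then (1:ℝ) else 0) := by
      intro i hi j hj
      rw [hB.orth r hr i hi r hr j hj]
      simp
    have hst := CH2_step C0 hC0 hK hBAS hMGL hMGA hOS0 hOL2 hSP2 hQS2 U t hU ht hc5 (d r)
      (e r) (m r) (β r) hv (hB.coef r hr) (hB.nonneg r hr) g W hg ψ hψ
    have hcc := CHI_basis hv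
    set S := CHI_sp (d r) (e r) with hS
    obtain ⟨g', W', hO, hT⟩ := hst
    obtain ⟨hMG1, hMG2, hMG3, hMG4, hMG5, hMG6⟩ := hMGL E U t hU S
    obtain ⟨c, hc⟩ := hcc
    have he : ∀ j < r, ∀ i < d j, e j i ∈ Sᗮ := by
      intro j hj i hi
      apply CHI_orth
      intro i' hi'
      rw [hB.orth j (hj.trans hr) i hi r hr i' hi', if_neg]
      intro h
      exact hj.ne h.1
    have hfS : Module.finrank ℝ S = d r := by
      rw [Module.finrank_eq_card_basis c.toBasis, Fintype.card_fin]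
    have hfo : Module.finrank ℝ Sᗮ ≤ ∑ j ∈ Finset.range r, d j := by
      have h1 := Submodule.finrank_add_finrank_orthogonal S
      rw [Finset.sum_range_succ] at hfr
      omega
    have hB' : Bk0 t r d (CHI_e S e) m β Dd := by
      refine ⟨?_, ?_, ?_, ?_, ?_⟩
      · intro j hj i hi j' hj' i' hi'
        rw [Submodule.coe_inner, CHI_e_coe (he j hj i hi), CHI_e_coe (he j' hj' i' hi')]
        exact hB.orth j (hj.trans hr) i hi j' (hj'.trans hr) i' hi'
      · exact fun j hj => hB.coef j (hj.trans hr)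
      · exact fun j hj => hB.nonneg j (hj.trans hr)
      · exact fun j hj => hB.size j (hj.trans hr)
      · exact fun j hj => hB.big j (hj.trans hr)
    have hψ' : GC (cav S U ψ) := (hSP2 E U t hU S ψ ψ hψ hψ).1
    obtain ⟨hM1, hM2, hM3⟩ := hMQ2 E U t hU S ψ hψ
    have h1 := ih Sᗮ (mg S U) t hMG1 ht (hMG6 5 hc5) d (CHI_e S e) m β Dd hB' hfo g' W' hO
      (cav S U ψ) hψ'
    have e3 : ∑ j ∈ Finset.range r, ∑ i ∈ Finset.range (d j),
        m j i * q2 (mg S U) (cav S U ψ) (CHI_e S e j i) (CHI_e S e j i) =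
        ∑ j ∈ Finset.range r, ∑ i ∈ Finset.range (d j), m j i * q2 U ψ (e j i) (e j i) := by
      refine Finset.sum_congr rfl fun j hj => Finset.sum_congr rfl fun i hi => ?_
      rw [hM1, CHI_e_coe (he j (Finset.mem_range.1 hj) i (Finset.mem_range.1 hi))]
    rw [e3] at h1
    -- monotonicity of the error terms
    have hmono : ∑ j ∈ Finset.range r, (β j ^ 2 * Dd j +
        β j * Real.sqrt (∑ i ∈ Finset.range j, (d i : ℝ)) / t ^ 2 *
          Real.sqrt (cv (mg S U) (cav S U ψ) (cav S U ψ))) ≤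
        ∑ j ∈ Finset.range r, (β j ^ 2 * Dd j +
        β j * Real.sqrt (∑ i ∈ Finset.range j, (d i : ℝ)) / t ^ 2 * Real.sqrt (cv U ψ ψ)) := by
      apply Finset.sum_le_sum
      intro j hj
      have h2 := hB.nonneg j ((Finset.mem_range.1 hj).trans hr)
      apply add_le_add le_rfl
      exact mul_le_mul_of_nonneg_left (Real.sqrt_le_sqrt hM3) (by positivity)
    -- numerical part
    have h3 : (Module.finrank ℝ Sᗮ : ℝ) ≤ ∑ i ∈ Finset.range r, (d i : ℝ) := by
      exact_mod_cast hfo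
    have h4 := hB.big r hr
    have h5 := hB.size r hr
    have h6 := hB.nonneg r hr
    have h7 : (d r : ℝ) + 4 * Module.finrank ℝ Sᗮ / t ^ 7 ≤ 5 * Dd r := by
      have h8 : 4 * (Module.finrank ℝ Sᗮ : ℝ) / t ^ 7 ≤ 4 * Dd r := by
        rw [div_le_iff₀ (by positivity)]
        linarith
      linarith
    have h9 : C0 * β r ^ 2 * ((d r : ℝ) + 4 * Module.finrank ℝ Sᗮ / t ^ 7) ≤
        C0 * β r ^ 2 * (5 * Dd r) := mul_le_mul_of_nonneg_left h7 (by positivity)
    have h10 : 0 ≤ β r ^ 2 * Dd r := by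
      have : 0 ≤ Dd r := le_trans (Nat.cast_nonneg _) h5
      positivity
    have h11 : β r * Real.sqrt (Module.finrank ℝ Sᗮ) / t ^ 2 * Real.sqrt (cv U ψ ψ) ≤
        β r * Real.sqrt (∑ i ∈ Finset.range r, (d i : ℝ)) / t ^ 2 * Real.sqrt (cv U ψ ψ) := by
      apply mul_le_mul_of_nonneg_right _ (Real.sqrt_nonneg _)
      apply div_le_div_of_nonneg_right _ (by positivity)
      exact mul_le_mul_of_nonneg_left (Real.sqrt_le_sqrt h3) h6
    have h12 : 0 ≤ β r * Real.sqrt (∑ i ∈ Finset.range r, (d i : ℝ)) / t ^ 2 *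
        Real.sqrt (cv U ψ ψ) := by
      positivity
    have h13 : 0 ≤ C0 * (β r * Real.sqrt (∑ i ∈ Finset.range r, (d i : ℝ)) / t ^ 2 *
        Real.sqrt (cv U ψ ψ)) := by
      positivity
    have h14 := mul_le_mul_of_nonneg_left hmono (by linarith : (0:ℝ) ≤ 5 * C0 + 9)
    simp only [Finset.sum_range_succ]
    nlinarith [h1, hT, h9, h10, h11, h12, h13, h14]

end Pool.Agent.H20.KH
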